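import Pool.Agent.W425.SH.Defs
import Pool.Agent.W596.SL.L2

set_option autoImplicit false

/-! Part H2: the algebraic relation for a sparse polynomial plus terms of higher order. -/

namespace Pool.Agent.W342.SH

open MvPolynomial Pool.Agent.H628R4.TZ Pool.Agent.W425.SM Pool.Agent.W525.SM Pool.Agent.W425.SL
open Pool.Agent.W425.SH Pool.Agent.W596.SL
open Pool.Agent.H628R4.TP (weylS)

variable {r N : ℕ}

/-- The right side. -/
theorem rhs_gen {v : Fin r → Fin N → ℕ} (a : Fin r → ℂ) (ha : ∀ j, a j ≠ 0)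
    (D : Set (Fin r → ℤ)) (hD : ∀ F : Set (Fin N → ℤ), F.Finite →
      ({c | c ∈ D ∧ ∑ j, c j = 1 ∧ Sh v c ∈ F} : Set (Fin r → ℤ)).Finite)
    (P : ℕ →₀ weylS (Fin N)) :
    ∃ (S : Finset (Fin r → ℤ)) (q : ℕ → (Fin r → ℤ) → MvPolynomial (Fin N) ℂ),
      (∀ c ∈ S, c ∈ D ∧ ∑ j, c j = 1) ∧
      ∀ (M : ℕ), (∀ c ∈ S, ∀ j, c j ≤ M) → ∀ (u : Fin r → ℕ),
        (∀ γ : Fin r → ℕ, (fun j => (γ j : ℤ) - u j) ∈ D) →
        (∏ j, ((u j + M).factorial : ℂ)) * coeff (Ex v u)
          (P.sum fun m Q => (((∑ j, u j : ℕ) : ℂ) ^ m) •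
            (Q : Module.End ℂ (MvPolynomial (Fin N) ℂ)) (sparse v a ^ (∑ j, u j + 1))) =
          ((((∑ j, u j).factorial : ℕ) : ℂ) * ∏ j, a j ^ u j) *
          ((((∑ j, u j : ℕ) : ℂ) + 1) * ∑ c ∈ S,
          (∏ j, a j ^ c j) *
          (∏ j, eval (fun m => (u m : ℂ)) (ff M j (c j) * fq M j (c j))) *
          (∏ i, (((∑ j, u j * v j i : ℕ) + Sh v c i).toNat.descFactorial
            (Sh v c i).toNat : ℂ)) *
          ∑ m ∈ P.support, ((∑ j, u j : ℕ) : ℂ) ^ m *
            eval (fun x => ((Ex v u x : ℕ) : ℂ) + ((Sh v c x : ℤ) : ℂ)) (q m c)) := by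
  classical
  choose Q hQf hQ using fun (T : weylS (Fin N)) =>
    Pool.Agent.H628R4.TP.act_weyl (T : Module.End ℂ (MvPolynomial (Fin N) ℂ)) T.2
  have hfin : ({c : Fin r → ℤ | c ∈ D ∧ ∑ j, c j = 1 ∧
      ∃ m ∈ P.support, Q (P m) (Sh v c) ≠ 0} : Set _).Finite := by
    refine (hD (⋃ m ∈ P.support, Function.support (Q (P m)))
      (Set.Finite.biUnion P.support.finite_toSet fun m _ => hQf (P m))).subset fun c hc => ?_
    obtain ⟨hcD, h0, m, hm, hq⟩ := hc
    refine ⟨hcD, h0, ?_⟩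
    simp only [Set.mem_iUnion]
    exact ⟨m, hm, hq⟩
  refine ⟨hfin.toFinset, fun m c => Q (P m) (Sh v c), fun c hc => ?_,
    fun M hM u huD => ?_⟩
  · have := (Set.Finite.mem_toFinset hfin).1 hc
    exact ⟨this.1, this.2.1⟩
  set n := ∑ j, u j with hn
  -- the coefficient for the shift
  set F : (Fin r → ℕ) → ℂ := fun γ =>
    cf a γ * ∑ m ∈ P.support, (n : ℂ) ^ m *
      (eval (fun x => ((Ex v γ x : ℕ) : ℂ)) (Q (P m) (Sh v fun j => (γ j : ℤ) - u j)) *
      ∏ x, ((Ex v γ x).descFactorial (Sh v (fun j => (γ j : ℤ) - u j) x).toNat : ℂ)) with hF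
  have hsh := shift_ex v u
  have h2 : coeff (Ex v u) (P.sum fun m Q => ((n : ℂ) ^ m) •
            (Q : Module.End ℂ (MvPolynomial (Fin N) ℂ)) (sparse v a ^ (n + 1))) =
      ∑ γ ∈ Finset.piAntidiag Finset.univ (n+1), F γ := by
    rw [Finsupp.sum, coeff_sum]
    have h3 : ∀ m ∈ P.support, coeff (Ex v u) (((n : ℂ) ^ m) •
        ((P m : weylS (Fin N)) : Module.End ℂ _) (sparse v a ^ (n+1))) =
        ∑ γ ∈ Finset.piAntidiag Finset.univ (n+1), (n : ℂ) ^ m * (cf a γ *
        (eval (fun x => ((Ex v γ x : ℕ) : ℂ)) (Q (P m) (Sh v fun j => (γ j : ℤ) - u j)) *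
        ∏ x, ((Ex v γ x).descFactorial
          (Sh v (fun j => (γ j : ℤ) - u j) x).toNat : ℂ))) := by
      intro m _
      rw [coeff_smul, smul_eq_mul, pow_expand, map_sum, coeff_sum, Finset.mul_sum]
      refine Finset.sum_congr rfl fun γ _ => ?_
      congr 1
      have h4 : (monomial (Ex v γ) (cf a γ) : MvPolynomial (Fin N) ℂ) =
          (cf a γ) • monomial (Ex v γ) 1 := by
        rw [smul_monomial, smul_eq_mul, mul_one]
      rw [h4, map_smul, coeff_smul, smul_eq_mul, hQ (P m) _ _ _ (hsh γ)]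
    rw [Finset.sum_congr rfl h3, Finset.sum_comm]
    refine Finset.sum_congr rfl fun γ _ => ?_
    rw [hF]
    simp only [Finset.mul_sum]
    exact Finset.sum_congr rfl fun m _ => by ring
  have h5 := reindex u 1 hfin.toFinset F (fun c hc => by
      have := ((Set.Finite.mem_toFinset hfin).1 hc).2.1
      rw [this]; rfl) (by
    intro γ hγ hne
    rw [Set.Finite.mem_toFinset]
    refine ⟨huD γ, ?_, ?_⟩
    · rw [Finset.sum_sub_distrib, ← Nat.cast_sum, ← Nat.cast_sum, hγ]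
      push_cast
      ring
    · by_contra hno
      push Not at hno
      apply hne
      rw [hF]
      simp only
      rw [Finset.sum_eq_zero, mul_zero]
      intro m hm
      rw [hno m hm]
      simp)
  rw [← hn] at h5
  rw [h2, h5, Finset.mul_sum, Finset.mul_sum, Finset.mul_sum]
  refine Finset.sum_congr rfl fun c hc => ?_
  split_ifs with hpos
  swap
  · push Not at hpos
    obtain ⟨j, hj⟩ := hpos
    have hz : ∏ j, eval (fun m => (u m : ℂ)) (ff M j (c j) * fq M j (c j)) = 0 :=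
      Finset.prod_eq_zero (Finset.mem_univ j) (eval_fc_zero u M j (c j) hj)
    rw [hz]
    simp
  have h9 := ((Set.Finite.mem_toFinset hfin).1 hc).2.1
  have h10 : ∀ j, ((((u j : ℤ) + c j).toNat : ℕ) : ℤ) = (u j : ℤ) + c j :=
    fun j => Int.toNat_of_nonneg (hpos j)
  have hcl := clear a ha u M 1 c (by rw [h9]; rfl) (hM c hc) hpos
  rw [← hn] at hcl
  set γ : Fin r → ℕ := fun j => ((u j : ℤ) + c j).toNat with hγ
  have hc' : (fun j => (γ j : ℤ) - u j) = c := by
    funext j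
    rw [hγ]
    simp only
    rw [h10]
    ring
  have hshc := hsh γ
  rw [hc'] at hshc
  rw [hF]
  simp only
  rw [hc']
  have h14 : ∀ x, ((Ex v γ x : ℕ) : ℂ) = ((Ex v u x : ℕ) : ℂ) + ((Sh v c x : ℤ) : ℂ) := by
    intro x
    exact_mod_cast hshc x
  simp only [h14]
  have h15 : ∏ x, ((Ex v γ x).descFactorial (Sh v c x).toNat : ℂ) =
      ∏ i, (((∑ j, u j * v j i : ℕ) + Sh v c i).toNat.descFactorial
            (Sh v c i).toNat : ℂ) := by
    refine Finset.prod_congr rfl fun i _ => ?_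
    have h16 := hshc i
    rw [Ex_apply v u] at h16
    have h17 : Ex v γ i = (((∑ j, u j * v j i : ℕ) : ℤ) + Sh v c i).toNat := by omega
    rw [h17]
  have h12 : (((n + 1).factorial : ℕ) : ℂ) = ((n : ℂ) + 1) * (n.factorial : ℂ) := by
    rw [Nat.factorial_succ]; push_cast; ring
  rw [h12] at hcl
  rw [h15, ← mul_assoc, hcl]
  simp only [Finset.mul_sum]
  refine Finset.sum_congr rfl fun m _ => ?_
  ring

/-- The left side. -/
theorem lhs_gen {v : Fin r → Fin N → ℕ} (a : Fin r → ℂ) (ha : ∀ j, a j ≠ 0)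
    (D : Set (Fin r → ℤ)) (hD : ∀ F : Set (Fin N → ℤ), F.Finite →
      ({c | c ∈ D ∧ ∑ j, c j = 0 ∧ Sh v c ∈ F} : Set (Fin r → ℤ)).Finite)
    (A : MvPolynomial (Fin N) ℂ) :
    ∃ (S : Finset (Fin r → ℤ)), (∀ c, c ∈ S ↔ c ∈ D ∧ ∑ j, c j = 0 ∧ alf v A c ≠ 0) ∧
      ∀ (M : ℕ), (∀ c ∈ S, ∀ j, c j ≤ M) → ∀ (u : Fin r → ℕ),
        (∀ γ : Fin r → ℕ, (fun j => (γ j : ℤ) - u j) ∈ D) →
        (∏ j, ((u j + M).factorial : ℂ)) * coeff (Ex v u) (A * sparse v a ^ (∑ j, u j)) =
          ((((∑ j, u j).factorial : ℕ) : ℂ) * ∏ j, a j ^ u j) *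
          ∑ c ∈ S, alf v A c * (∏ j, a j ^ c j) *
          (∏ j, eval (fun m => (u m : ℂ)) (ff M j (c j) * fq M j (c j))) := by
  classical
  have hfin : ({c : Fin r → ℤ | c ∈ D ∧ ∑ j, c j = 0 ∧ alf v A c ≠ 0} : Set _).Finite := by
    have h1 : (((fun g : Fin N →₀ ℕ => (fun i => -(g i : ℤ))) '' (A.support : Set (Fin N →₀ ℕ)))
      : Set (Fin N → ℤ)).Finite := (A.support.finite_toSet).image _
    refine (hD _ h1).subset ?_
    rintro c ⟨hcD, hc0, hc⟩
    refine ⟨hcD, hc0, ?_⟩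
    unfold alf at hc
    split_ifs at hc with h0
    · refine ⟨gam v c, mem_support_iff.2 hc, ?_⟩
      funext i
      have := h0 i
      simp only [gam, Finsupp.equivFunOnFinite_symm_apply_apply]
      omega
    · exact absurd rfl hc
  refine ⟨hfin.toFinset, fun c => Set.Finite.mem_toFinset hfin, fun M hM u huD => ?_⟩
  have h2 : coeff (Ex v u) (A * sparse v a ^ (∑ j, u j)) =
      ∑ γ ∈ Finset.piAntidiag Finset.univ (∑ j, u j + 0),
        alf v A (fun j => (γ j : ℤ) - u j) * cf a γ := by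
    rw [pow_expand, Finset.mul_sum, coeff_sum, add_zero]
    refine Finset.sum_congr rfl fun γ _ => ?_
    rw [coeff_mul_monomial']
    have hsh := shift_ex v u γ
    unfold alf
    by_cases hle : Ex v γ ≤ Ex v u
    · have h3 : ∀ i, Sh v (fun j => (γ j : ℤ) - u j) i ≤ 0 := by
        intro i
        have h4 := hle i
        have h5 := hsh i
        omega
      rw [if_pos hle, if_pos h3]
      congr 2
      ext i
      have h4 := hle i
      have h5 := hsh i
      simp only [gam, Finsupp.equivFunOnFinite_symm_apply_apply, Finsupp.tsub_apply]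
      omega
    · have h3 : ¬ ∀ i, Sh v (fun j => (γ j : ℤ) - u j) i ≤ 0 := by
        intro h4
        apply hle
        intro i
        have h5 := hsh i
        have h6 := h4 i
        omega
      rw [if_neg hle, if_neg h3, zero_mul]
  have h5 := reindex u 0 hfin.toFinset
    (fun γ => alf v A (fun j => (γ j : ℤ) - u j) * cf a γ) (fun c hc => by
      have := ((Set.Finite.mem_toFinset hfin).1 hc).2.1
      rw [this]; rfl) (by
    intro γ hγ hne
    rw [Set.Finite.mem_toFinset]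
    refine ⟨huD γ, ?_, ?_⟩
    · rw [Finset.sum_sub_distrib, ← Nat.cast_sum, ← Nat.cast_sum, hγ]
      push_cast
      ring
    · exact left_ne_zero_of_mul hne)
  rw [h2, h5, Finset.mul_sum, Finset.mul_sum]
  refine Finset.sum_congr rfl fun c hc => ?_
  split_ifs with hpos
  swap
  · push Not at hpos
    obtain ⟨j, hj⟩ := hpos
    have hz : ∏ j, eval (fun m => (u m : ℂ)) (ff M j (c j) * fq M j (c j)) = 0 :=
      Finset.prod_eq_zero (Finset.mem_univ j) (eval_fc_zero u M j (c j) hj)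
    rw [hz]
    simp
  have h9 := ((Set.Finite.mem_toFinset hfin).1 hc).2.1
  have hcl := clear a ha u M 0 c (by rw [h9]; rfl) (hM c hc) hpos
  rw [add_zero] at hcl
  have hc' : (fun j => (((((u j : ℤ) + c j).toNat) : ℕ) : ℤ) - u j) = c := by
    funext j
    rw [Int.toNat_of_nonneg (hpos j)]
    ring
  rw [hc', mul_left_comm, hcl]
  ring


/-! ### The values of the factors -/

/-- the value of `ff * fq` -/
noncomputable def G (M : ℕ) (c : ℤ) (z : ℂ) : ℂ :=
  (if c < 0 then z * ∏ m ∈ Finset.range M, (z + ((m + 1 : ℕ) : ℂ)) else 1) *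
  (if c < 0 then ((-c).toNat.factorial : ℂ) * ((((-c).toNat.factorial : ℂ))⁻¹ *
      ((descPochhammer ℂ ((-c).toNat - 1)).comp (Polynomial.X - 1)).eval z)
    else ∏ m ∈ Finset.range (M - c.toNat), (z + ((c.toNat + m + 1 : ℕ) : ℂ)))

lemma eval_G {R : ℕ} (g : Fin R → ℂ) (M : ℕ) (j : Fin R) (c : ℤ) :
    eval g (ff M j c * fq M j c) = G M c (g j) := by
  unfold ff fq G rst cc dm
  split_ifs with h
  · simp only [map_mul, eval_C, eval_X, map_prod, map_add, eval_paeval]
  · simp only [map_mul, eval_C, eval_X, map_prod, map_add, map_one]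

lemma G_zero (M : ℕ) : G M 0 0 ≠ 0 := by
  unfold G
  rw [if_neg (lt_irrefl 0), if_neg (lt_irrefl 0), one_mul]
  refine Finset.prod_ne_zero_iff.2 fun m _ => ?_
  rw [zero_add]
  exact Nat.cast_ne_zero.2 (Nat.succ_ne_zero _)

/-! ### Two systems of exponents -/

/-- the differences with nonnegative second part -/
def DD (r q : ℕ) : Set (Fin (r + q) → ℤ) := {c | ∀ l : Fin q, 0 ≤ c (Fin.natAdd r l)}

variable {q : ℕ}

lemma Sh_split (v : Fin r → Fin N → ℕ) (w : Fin q → Fin N → ℕ) (c : Fin (r + q) → ℤ) (i : Fin N) :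
    Sh (Fin.append v w) c i = ∑ j, c (Fin.castAdd q j) * (v j i : ℤ) +
      ∑ l, c (Fin.natAdd r l) * (w l i : ℤ) := by
  unfold Sh
  rw [Fin.sum_univ_add]
  simp only [Fin.append_left, Fin.append_right]

lemma weight (v : Fin r → Fin N → ℕ) (w : Fin q → Fin N → ℕ) (ρ : Fin N → ℝ)
    (h1 : ∀ j, ∑ i, ρ i * (v j i : ℝ) = 1) (c : Fin (r + q) → ℤ) :
    ∑ i, ρ i * ((Sh (Fin.append v w) c i : ℤ) : ℝ) = ((∑ j, c j : ℤ) : ℝ) +
      ∑ l, (c (Fin.natAdd r l) : ℝ) * (∑ i, ρ i * (w l i : ℝ) - 1) := by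
  have e : ∀ i, ρ i * ((Sh (Fin.append v w) c i : ℤ) : ℝ) =
      ∑ j, (c (Fin.castAdd q j) : ℝ) * (ρ i * (v j i : ℝ)) +
        ∑ l, (c (Fin.natAdd r l) : ℝ) * (ρ i * (w l i : ℝ)) := by
    intro i
    rw [Sh_split]
    push_cast
    rw [mul_add, Finset.mul_sum, Finset.mul_sum]
    congr 1 <;> exact Finset.sum_congr rfl fun _ _ => by ring
  simp_rw [e]
  rw [Finset.sum_add_distrib, Finset.sum_comm]
  rw [Finset.sum_comm (s := Finset.univ) (t := Finset.univ)
    (f := fun (i : Fin N) (l : Fin q) => (c (Fin.natAdd r l) : ℝ) * (ρ i * (w l i : ℝ)))]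
  simp_rw [← Finset.mul_sum, h1]
  rw [Fin.sum_univ_add]
  push_cast
  simp only [mul_sub, mul_one, Finset.sum_sub_distrib]
  ring

lemma kill_id (v : Fin r → Fin N → ℕ) (w : Fin q → Fin N → ℕ) (c : Fin (r + q) → ℤ)
    (x : Fin N → ℝ) (t : ℝ) :
    ∑ j, (c (Fin.castAdd q j) : ℝ) * (∑ i, (v j i : ℝ) * x i - t) =
      ∑ i, ((Sh (Fin.append v w) c i : ℤ) : ℝ) * x i - ((∑ j, c j : ℤ) : ℝ) * t -
        ∑ l, (c (Fin.natAdd r l) : ℝ) * (∑ i, (w l i : ℝ) * x i - t) := by
  have e : ∀ i, ((Sh (Fin.append v w) c i : ℤ) : ℝ) * x i =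
      ∑ j, (c (Fin.castAdd q j) : ℝ) * ((v j i : ℝ) * x i) +
        ∑ l, (c (Fin.natAdd r l) : ℝ) * ((w l i : ℝ) * x i) := by
    intro i
    rw [Sh_split]
    push_cast
    rw [add_mul, Finset.sum_mul, Finset.sum_mul]
    congr 1 <;> exact Finset.sum_congr rfl fun _ _ => by ring
  simp_rw [e]
  rw [Finset.sum_add_distrib, Finset.sum_comm]
  rw [Finset.sum_comm (s := Finset.univ) (t := Finset.univ)
    (f := fun (i : Fin N) (l : Fin q) => (c (Fin.natAdd r l) : ℝ) * ((w l i : ℝ) * x i))]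
  simp_rw [← Finset.mul_sum]
  rw [Fin.sum_univ_add]
  push_cast
  simp only [mul_sub, Finset.sum_sub_distrib, ← Finset.sum_mul]
  ring

lemma zero_of {v : Fin r → Fin N → ℕ} (hv : Ind v) (w : Fin q → Fin N → ℕ) (c : Fin (r + q) → ℤ)
    (h0 : ∑ j, c j = 0) (h1 : ∀ l : Fin q, c (Fin.natAdd r l) = 0)
    (h2 : ∀ i, Sh (Fin.append v w) c i = 0) : c = 0 := by
  have h3 := ind_zero hv (fun j => c (Fin.castAdd q j)) (by
    rw [Fin.sum_univ_add] at h0
    simpa [h1] using h0) (by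
    intro i
    have := h2 i
    rw [Sh_split] at this
    simpa [h1] using this)
  funext j
  refine Fin.addCases (fun j => ?_) (fun l => ?_) j
  · exact congrFun h3 j
  · exact h1 l

lemma fin_lemma {v : Fin r → Fin N → ℕ} (hv : Ind v) (w : Fin q → Fin N → ℕ) (ρ : Fin N → ℝ)
    (h1 : ∀ j, ∑ i, ρ i * (v j i : ℝ) = 1) (h2 : ∀ l, 1 < ∑ i, ρ i * (w l i : ℝ)) (k : ℤ)
    (F : Set (Fin N → ℤ)) (hF : F.Finite) :
    ({c | c ∈ DD r q ∧ ∑ j, c j = k ∧ Sh (Fin.append v w) c ∈ F} :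
      Set (Fin (r + q) → ℤ)).Finite := by
  classical
  obtain ⟨B, hB⟩ : ∃ B : ℝ, ∀ f ∈ F, ∑ i, ρ i * (f i : ℝ) - k ≤ B := by
    obtain ⟨B, hB⟩ := (hF.image fun f => ∑ i, ρ i * (f i : ℝ) - k).bddAbove
    exact ⟨B, fun f hf => hB ⟨f, hf, rfl⟩⟩
  refine Set.Finite.of_finite_image (f := fun c : Fin (r + q) → ℤ =>
    (Sh (Fin.append v w) c, fun l : Fin q => c (Fin.natAdd r l))) ?_ ?_
  · refine (hF.prod (Set.finite_Icc (0 : Fin q → ℤ)
      (fun l => ⌈B / (∑ i, ρ i * (w l i : ℝ) - 1)⌉))).subset ?_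
    rintro _ ⟨c, ⟨hD, hk, hcF⟩, rfl⟩
    refine ⟨hcF, fun l => hD l, fun l => ?_⟩
    have h3 := weight v w ρ h1 c
    rw [hk] at h3
    have h4 := hB _ hcF
    have h5 : (c (Fin.natAdd r l) : ℝ) * (∑ i, ρ i * (w l i : ℝ) - 1) ≤
        ∑ l, (c (Fin.natAdd r l) : ℝ) * (∑ i, ρ i * (w l i : ℝ) - 1) :=
      Finset.single_le_sum (f := fun l => (c (Fin.natAdd r l) : ℝ) *
        (∑ i, ρ i * (w l i : ℝ) - 1)) (fun l _ => mul_nonneg (by exact_mod_cast hD l)
          (by have := h2 l; linarith)) (Finset.mem_univ l)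
    have h6 : (0 : ℝ) < ∑ i, ρ i * (w l i : ℝ) - 1 := by have := h2 l; linarith
    have h7 : (c (Fin.natAdd r l) : ℝ) ≤ B / (∑ i, ρ i * (w l i : ℝ) - 1) := by
      rw [le_div_iff₀ h6]
      linarith
    have h8 : (c (Fin.natAdd r l) : ℝ) ≤ (⌈B / (∑ i, ρ i * (w l i : ℝ) - 1)⌉ : ℤ) :=
      h7.trans (Int.le_ceil _)
    exact_mod_cast h8
  · intro c hc d hd hcd
    have e1 : Sh (Fin.append v w) c = Sh (Fin.append v w) d := congrArg Prod.fst hcd
    have e2 : ∀ l : Fin q, c (Fin.natAdd r l) = d (Fin.natAdd r l) :=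
      fun l => congrFun (congrArg Prod.snd hcd) l
    have h3 := zero_of hv w (fun j => c j - d j) (by
      rw [Finset.sum_sub_distrib, hc.2.1, hd.2.1, sub_self]) (fun l => by rw [e2 l, sub_self])
      (fun i => by
        have := congrFun e1 i
        unfold Sh at this ⊢
        simp only [sub_mul]
        rw [Finset.sum_sub_distrib, this, sub_self])
    funext j
    have := congrFun h3 j
    simp only [Pi.zero_apply] at this
    omega

lemma above_le {v : Fin r → Fin N → ℕ} {h : MvPolynomial (Fin N) ℂ} (hab : Above v h)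
    (w : Fin N →₀ ℕ) (hw : w ∈ h.support) (t : ℝ) (x : Fin N → ℝ) (hx : ∀ i, 0 ≤ x i)
    (ht : ∀ j, t ≤ ∑ i, (v j i : ℝ) * x i) : t ≤ ∑ i, (w i : ℝ) * x i := by
  have h1 : ∀ ε : ℝ, 0 < ε → t ≤ ∑ i, (w i : ℝ) * x i + ε * ∑ i, (w i : ℝ) := by
    intro ε hε
    obtain ⟨j, hj⟩ := hab w hw (fun i => x i + ε) (fun i => by have := hx i; linarith)
    have h2 : ∑ i, (v j i : ℝ) * x i ≤ ∑ i, (v j i : ℝ) * (x i + ε) :=
      Finset.sum_le_sum fun i _ => mul_le_mul_of_nonneg_left (by linarith) (Nat.cast_nonneg _)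
    have h3 : ∑ i, (w i : ℝ) * (x i + ε) = ∑ i, (w i : ℝ) * x i + ε * ∑ i, (w i : ℝ) := by
      rw [Finset.mul_sum, ← Finset.sum_add_distrib]
      exact Finset.sum_congr rfl fun i _ => by ring
    have h4 := ht j
    linarith
  have hW : 0 ≤ ∑ i, (w i : ℝ) := Finset.sum_nonneg fun i _ => Nat.cast_nonneg _
  refine le_of_forall_pos_le_add fun η hη => ?_
  have h5 := h1 (η / (∑ i, (w i : ℝ) + 1)) (by positivity)
  have h6 : η / (∑ i, (w i : ℝ) + 1) * ∑ i, (w i : ℝ) ≤ η := by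
    rw [div_mul_eq_mul_div, div_le_iff₀ (by positivity)]
    nlinarith
  linarith

/-- `f` as a sparse polynomial -/
lemma sparse_append (v : Fin r → Fin N → ℕ) (a : Fin r → ℂ) (h : MvPolynomial (Fin N) ℂ) :
    ∃ (q : ℕ) (w : Fin q → Fin N → ℕ) (b : Fin q → ℂ), (∀ l, b l ≠ 0) ∧
      (∀ l, ∃ g ∈ h.support, ∀ i, w l i = g i) ∧
      sparse v a + h = sparse (Fin.append v w) (Fin.append a b) := by
  classical
  set e := h.support.equivFin with he
  refine ⟨h.support.card, fun l i => (e.symm l : Fin N →₀ ℕ) i, fun l => coeff (e.symm l) h,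
    fun l => mem_support_iff.1 (e.symm l).2, fun l => ⟨_, (e.symm l).2, fun i => rfl⟩, ?_⟩
  unfold sparse
  rw [Fin.sum_univ_add]
  simp only [Fin.append_left, Fin.append_right]
  congr 1
  have h1 : h = ∑ g ∈ h.support, monomial g (coeff g h) := h.support_sum_monomial_coeff.symm
  have h2 : ∀ g : Fin N →₀ ℕ, (monomial g (coeff g h) : MvPolynomial (Fin N) ℂ) =
      C (coeff g h) * ∏ i, X i ^ g i := by
    intro g
    rw [monomial_eq, Finsupp.prod_fintype _ _ (by simp)]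
  conv_lhs => rw [h1]
  rw [← Finset.sum_coe_sort h.support]
  rw [← Equiv.sum_comp e.symm]
  exact Finset.sum_congr rfl fun l _ => h2 _

/-- main computation -/
theorem main {q : ℕ} {v : Fin r → Fin N → ℕ} (hv : Ind v) (w : Fin q → Fin N → ℕ)
    (a : Fin (r + q) → ℂ) (ha : ∀ j, a j ≠ 0) (ρ : Fin N → ℝ)
    (h1 : ∀ j, ∑ i, ρ i * (v j i : ℝ) = 1) (h2 : ∀ l, 1 < ∑ i, ρ i * (w l i : ℝ))
    (hab : ∀ (l : Fin q) (t : ℝ) (x : Fin N → ℝ), (∀ i, 0 ≤ x i) →
      (∀ j, t ≤ ∑ i, (v j i : ℝ) * x i) → t ≤ ∑ i, (w l i : ℝ) * x i)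
    (p : Polynomial ℂ)
    (hb : IsUnitBFunction (sparse (Fin.append v w) a) ((Polynomial.X + 1) * p)) : RelG v p := by
  classical
  obtain ⟨A, P, hA, hP⟩ := hb
  obtain ⟨S, qq, hS, hq⟩ := rhs_gen (v := Fin.append v w) a ha (DD r q)
    (fun F hF => fin_lemma hv w ρ h1 h2 1 F hF) P
  obtain ⟨S', hS', hl⟩ := lhs_gen (v := Fin.append v w) a ha (DD r q)
    (fun F hF => fin_lemma hv w ρ h1 h2 0 F hF) A
  obtain ⟨M, hM⟩ : ∃ M : ℕ, ∀ c ∈ S ∪ S', ∀ j, c j ≤ M := by
    refine ⟨∑ c ∈ S ∪ S', ∑ j, (c j).toNat, fun c hc j => ?_⟩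
    have h1 : (c j).toNat ≤ ∑ j, (c j).toNat :=
      Finset.single_le_sum (f := fun j => (c j).toNat) (fun _ _ => Nat.zero_le _)
        (Finset.mem_univ j)
    have h2 : ∑ j, (c j).toNat ≤ ∑ c ∈ S ∪ S', ∑ j, (c j).toNat :=
      Finset.single_le_sum (f := fun c : Fin (r + q) → ℤ => ∑ j, (c j).toNat)
        (fun _ _ => Nat.zero_le _) hc
    omega
  have hqM := hq M (fun c hc => hM c (Finset.mem_union_left _ hc))
  have hlM := hl M (fun c hc => hM c (Finset.mem_union_right _ hc))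
  set σ : MvPolynomial (Fin r) ℂ := ∑ j, X j with hσ
  set b : Polynomial ℂ := (Polynomial.X + 1) * p with hbdef
  -- the constants
  set kp : (Fin (r + q) → ℤ) → ℂ := fun c => ∏ l : Fin q, G M (c (Fin.natAdd r l)) 0 with hkp
  set gx : (Fin (r + q) → ℤ) → (Fin N) → MvPolynomial (Fin r) ℂ := fun c i =>
    el v i - 1 + C ((Sh (Fin.append v w) c i : ℤ) : ℂ) with hgx
  set qt : (Fin (r + q) → ℤ) → MvPolynomial (Fin r) ℂ := fun c =>
    C ((∏ j, a j ^ c j) * kp c) * (∏ j : Fin r, fq M j (c (Fin.castAdd q j))) *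
      (∏ i ∈ Bc (Fin.append v w) c, dd v i (Sh (Fin.append v w) c i).toNat) *
      ∑ m ∈ P.support, σ ^ m * aeval (gx c) (qq m c) with hqt
  -- the full relation
  have hfull : Polynomial.aeval σ b * ∑ c ∈ S', (C (alf (Fin.append v w) A c *
      (∏ j, a j ^ c j) * kp c) *
      ∏ j : Fin r, (ff M j (c (Fin.castAdd q j)) * fq M j (c (Fin.castAdd q j)))) =
      (σ + 1) * ∑ c ∈ S, (∏ i ∈ Bc (Fin.append v w) c, el v i) *
        ((∏ j : Fin r, if c (Fin.castAdd q j) < 0 then X j * dm M j else 1) * qt c) := by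
    refine funext_set (fun _ => Set.range (Nat.cast : ℕ → ℂ))
      (fun _ => Set.infinite_range_of_injective Nat.cast_injective) fun x hx => ?_
    choose u hu using fun j => hx j (Set.mem_univ j)
    obtain rfl : x = fun j => (u j : ℂ) := funext fun j => (hu j).symm
    have hσe : eval (fun j => (u j : ℂ)) σ = ((∑ m, u m : ℕ) : ℂ) := by simp [hσ]
    set u' : Fin (r + q) → ℕ := Fin.append u (fun _ => 0) with hu'
    have hsum : ∑ j, u' j = ∑ j, u j := by
      rw [Fin.sum_univ_add]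
      simp [hu']
    have huD : ∀ γ : Fin (r + q) → ℕ, (fun j => (γ j : ℤ) - u' j) ∈ DD r q := by
      intro γ l
      simp [hu']
    have hEx : ∀ i, Ex (Fin.append v w) u' i = ∑ j, u j * v j i := by
      intro i
      rw [Ex_apply, Fin.sum_univ_add]
      simp [hu']
    have hus : ∀ i, ∑ j, u' j * (Fin.append v w) j i = ∑ j, u j * v j i := by
      intro i
      rw [← hEx, Ex_apply]
    -- numerical identity
    have hn0 : ((((∑ j, u j).factorial : ℕ) : ℂ)) ≠ 0 := by exact_mod_cast Nat.factorial_ne_zero _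
    have ha0 : (∏ j, a j ^ u' j) ≠ 0 :=
      Finset.prod_ne_zero_iff.2 fun j _ => pow_ne_zero _ (ha j)
    have hnum : b.eval (((∑ j, u j : ℕ) : ℂ)) * ∑ c ∈ S', alf (Fin.append v w) A c *
          (∏ j, a j ^ c j) *
          (∏ j, eval (fun m => (u' m : ℂ)) (ff M j (c j) * fq M j (c j))) =
        (((∑ j, u j : ℕ) : ℂ) + 1) * ∑ c ∈ S,
          (∏ j, a j ^ c j) *
          (∏ j, eval (fun m => (u' m : ℂ)) (ff M j (c j) * fq M j (c j))) *
          (∏ i, (((∑ j, u j * v j i : ℕ) + Sh (Fin.append v w) c i).toNat.descFactorial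
            (Sh (Fin.append v w) c i).toNat : ℂ)) *
          ∑ m ∈ P.support, ((∑ j, u j : ℕ) : ℂ) ^ m *
            eval (fun x => ((Ex (Fin.append v w) u' x : ℕ) : ℂ) +
              ((Sh (Fin.append v w) c x : ℤ) : ℂ)) (qq m c) := by
      have h1 := congrArg (coeff (Ex (Fin.append v w) u')) (hP (∑ j, u j))
      rw [mul_assoc, coeff_C_mul] at h1
      have hq1 := hqM u' huD
      have hl1 := hlM u' huD
      rw [hsum] at hq1 hl1
      simp only [hus] at hq1
      refine mul_left_cancel₀ (mul_ne_zero hn0 ha0) ?_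
      rw [← hq1, ← h1, mul_left_comm, ← hl1]
      ring
    -- splitting of the product
    have hsplit : ∀ c : Fin (r + q) → ℤ,
        (∏ j, eval (fun m => (u' m : ℂ)) (ff M j (c j) * fq M j (c j))) =
        kp c * ∏ j : Fin r, eval (fun m => (u m : ℂ))
          (ff M j (c (Fin.castAdd q j)) * fq M j (c (Fin.castAdd q j))) := by
      intro c
      simp only [eval_G]
      rw [Fin.prod_univ_add, mul_comm, hkp]
      simp [hu']
    rw [map_mul, eval_paeval, hσe, map_mul, map_add, hσe, map_one, map_sum, map_sum]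
    have e1 : ∑ c ∈ S', eval (fun j => (u j : ℂ)) (C (alf (Fin.append v w) A c *
      (∏ j, a j ^ c j) * kp c) *
      ∏ j : Fin r, (ff M j (c (Fin.castAdd q j)) * fq M j (c (Fin.castAdd q j)))) =
        ∑ c ∈ S', alf (Fin.append v w) A c * (∏ j, a j ^ c j) *
          (∏ j, eval (fun m => (u' m : ℂ)) (ff M j (c j) * fq M j (c j))) := by
      refine Finset.sum_congr rfl fun c _ => ?_
      rw [map_mul, eval_C, map_prod, hsplit]
      ring
    rw [e1, hnum]
    congr 1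
    refine Finset.sum_congr rfl fun c hc => ?_
    have hA : eval (fun j => (u j : ℂ)) (∏ j : Fin r, if c (Fin.castAdd q j) < 0 then
          (X j * dm M j : MvPolynomial (Fin r) ℂ) else 1) *
          eval (fun j => (u j : ℂ)) (∏ j : Fin r, fq M j (c (Fin.castAdd q j))) =
          ∏ j : Fin r, eval (fun m => (u m : ℂ))
            (ff M j (c (Fin.castAdd q j)) * fq M j (c (Fin.castAdd q j))) := by
      simp only [map_prod, ← Finset.prod_mul_distrib, map_mul]
      rfl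
    have hB : eval (fun j => (u j : ℂ)) (∏ i ∈ Bc (Fin.append v w) c, el v i) *
          eval (fun j => (u j : ℂ)) (∏ i ∈ Bc (Fin.append v w) c,
            dd v i (Sh (Fin.append v w) c i).toNat) =
          ∏ i, (((∑ j, u j * v j i : ℕ) + Sh (Fin.append v w) c i).toNat.descFactorial
              (Sh (Fin.append v w) c i).toNat : ℂ) := by
      rw [← Finset.prod_subset (Finset.subset_univ (Bc (Fin.append v w) c))]
      · rw [map_prod, map_prod, ← Finset.prod_mul_distrib]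
        refine Finset.prod_congr rfl fun i hi => ?_
        have h10 : 0 < Sh (Fin.append v w) c i := by simpa [Bc, Sh] using hi
        rw [eval_dd _ _ _ (by omega), usum]
        have h11 : (((∑ j, u j * v j i : ℕ) : ℤ) + Sh (Fin.append v w) c i).toNat =
            ∑ j, u j * v j i + (Sh (Fin.append v w) c i).toNat := by omega
        rw [h11]
      · intro i _ hi
        have h10 : ¬ 0 < Sh (Fin.append v w) c i := by simpa [Bc, Sh] using hi
        have : (Sh (Fin.append v w) c i).toNat = 0 := by omega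
        rw [this]; simp
    have hC : eval (fun j => (u j : ℂ)) (∑ m ∈ P.support, σ ^ m * aeval (gx c) (qq m c)) =
          ∑ m ∈ P.support, ((∑ m, u m : ℕ) : ℂ) ^ m *
            eval (fun x => ((Ex (Fin.append v w) u' x : ℕ) : ℂ) +
              ((Sh (Fin.append v w) c x : ℤ) : ℂ)) (qq m c) := by
      rw [map_sum]
      refine Finset.sum_congr rfl fun m _ => ?_
      rw [map_mul, map_pow, hσe, eval_maeval]
      congr 3
      funext x
      rw [hgx, hEx]
      simp only [map_add, map_sub, map_one, eval_C]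
      rw [eval_el, usum]
      push_cast
      ring
    rw [hsplit, ← hA, ← hB, ← hC, hqt]
    simp only [map_mul, eval_C]
    ring
  -- division by `σ + 1`
  have h3 : (σ + 1) ≠ 0 := by
    intro h
    have h4 := congrArg (eval (0 : Fin r → ℂ)) h
    rw [map_add, map_one, map_zero, hσ, map_sum] at h4
    simp at h4
  have hdiv : Polynomial.aeval σ p * ∑ c ∈ S', (C (alf (Fin.append v w) A c *
      (∏ j, a j ^ c j) * kp c) *
      ∏ j : Fin r, (ff M j (c (Fin.castAdd q j)) * fq M j (c (Fin.castAdd q j)))) =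
      ∑ c ∈ S, (∏ i ∈ Bc (Fin.append v w) c, el v i) *
        ((∏ j : Fin r, if c (Fin.castAdd q j) < 0 then X j * dm M j else 1) * qt c) := by
    refine mul_left_cancel₀ h3 ?_
    rw [← hfull, hbdef, map_mul, map_add, Polynomial.aeval_X, map_one]
    ring
  have h0S : (0 : Fin (r + q) → ℤ) ∈ S' := by
    rw [hS']
    refine ⟨fun l => le_rfl, by simp, ?_⟩
    rw [alf_zero A hA]
    exact one_ne_zero
  have hk0 : kp 0 ≠ 0 := Finset.prod_ne_zero_iff.2 fun l _ => G_zero M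
  -- the final relation, with sums over sets
  have hrel : Polynomial.aeval σ p * ∏ j, dm M j =
      ∑ c ∈ S, (∏ i ∈ Bc (Fin.append v w) c, el v i) *
        ((∏ j : Fin r, if c (Fin.castAdd q j) < 0 then X j * dm M j else 1) *
          (C (kp 0)⁻¹ * qt c)) +
      ∑ c ∈ S'.erase 0, (∏ j : Fin r, if c (Fin.castAdd q j) < 0 then X j * dm M j else 1) *
        (-(C (kp 0)⁻¹ * C (alf (Fin.append v w) A c * (∏ j, a j ^ c j) * kp c) *
          (∏ j : Fin r, fq M j (c (Fin.castAdd q j))) * Polynomial.aeval σ p)) := by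
    rw [← Finset.add_sum_erase S' _ h0S] at hdiv
    have e0 : C (alf (Fin.append v w) A 0 * (∏ j, a j ^ (0 : Fin (r + q) → ℤ) j) * kp 0) *
        ∏ j : Fin r, (ff M j ((0 : Fin (r + q) → ℤ) (Fin.castAdd q j)) *
          fq M j ((0 : Fin (r + q) → ℤ) (Fin.castAdd q j))) =
        C (kp 0) * (∏ j, dm M j : MvPolynomial (Fin r) ℂ) := by
      rw [alf_zero A hA]
      simp only [Pi.zero_apply, zpow_zero, Finset.prod_const_one, mul_one, one_mul]
      congr 1
      refine Finset.prod_congr rfl fun j _ => ?_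
      rw [fq_zero]
      unfold ff
      rw [if_neg (lt_irrefl 0), one_mul]
    rw [e0] at hdiv
    have hC1 : (C (kp 0)⁻¹ : MvPolynomial (Fin r) ℂ) * C (kp 0) = 1 := by
      rw [← C_mul, inv_mul_cancel₀ hk0, C_1]
    have e1 : ∑ c ∈ S, (∏ i ∈ Bc (Fin.append v w) c, el v i) *
        ((∏ j : Fin r, if c (Fin.castAdd q j) < 0 then X j * dm M j else 1) *
          (C (kp 0)⁻¹ * qt c)) = C (kp 0)⁻¹ * ∑ c ∈ S, (∏ i ∈ Bc (Fin.append v w) c, el v i) *
        ((∏ j : Fin r, if c (Fin.castAdd q j) < 0 then X j * dm M j else 1) * qt c) := by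
      rw [Finset.mul_sum]
      exact Finset.sum_congr rfl fun c _ => by ring
    rw [e1, ← hdiv, mul_add, mul_add]
    have e2 : C (kp 0)⁻¹ * (Polynomial.aeval σ p * (C (kp 0) * ∏ j, dm M j)) =
        (C (kp 0)⁻¹ * C (kp 0)) * (Polynomial.aeval σ p *
          (∏ j, dm M j : MvPolynomial (Fin r) ℂ)) := by ring
    rw [e2, hC1, one_mul, add_assoc, left_eq_add, Finset.mul_sum, Finset.mul_sum,
      ← Finset.sum_add_distrib]
    refine Finset.sum_eq_zero fun c _ => ?_
    have e3 : ∏ j : Fin r, (ff M j (c (Fin.castAdd q j)) * fq M j (c (Fin.castAdd q j))) =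
        (∏ j : Fin r, if c (Fin.castAdd q j) < 0 then
          (X j * dm M j : MvPolynomial (Fin r) ℂ) else 1) *
          ∏ j : Fin r, fq M j (c (Fin.castAdd q j)) := by
      rw [Finset.prod_mul_distrib]
      rfl
    rw [e3]
    ring
  -- indexing by `Fin n`
  have hidx : ∀ (T : Finset (Fin (r + q) → ℤ)) (g : (Fin (r + q) → ℤ) → MvPolynomial (Fin r) ℂ),
      ∑ c ∈ T, g c = ∑ k : Fin T.card, g (T.equivFin.symm k) := by
    intro T g
    rw [← Finset.sum_coe_sort T]
    exact (Equiv.sum_comp T.equivFin.symm (fun c : T => g c)).symm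
  rw [hidx, hidx] at hrel
  refine ⟨M, S.card, (S'.erase 0).card, fun k j => (S.equivFin.symm k : Fin (r + q) → ℤ)
    (Fin.castAdd q j), fun k => Bc (Fin.append v w) (S.equivFin.symm k),
    fun k => C (kp 0)⁻¹ * qt (S.equivFin.symm k),
    fun k j => ((S'.erase 0).equivFin.symm k : Fin (r + q) → ℤ) (Fin.castAdd q j),
    fun k => -(C (kp 0)⁻¹ * C (alf (Fin.append v w) A ((S'.erase 0).equivFin.symm k) *
      (∏ j, a j ^ ((S'.erase 0).equivFin.symm k : Fin (r + q) → ℤ) j) *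
      kp ((S'.erase 0).equivFin.symm k)) *
          (∏ j : Fin r, fq M j (((S'.erase 0).equivFin.symm k : Fin (r + q) → ℤ)
            (Fin.castAdd q j))) * Polynomial.aeval σ p), ?_, ?_, hrel⟩
  · intro k
    obtain ⟨hcD, hc1⟩ := hS _ (S.equivFin.symm k).2
    set c : Fin (r + q) → ℤ := (S.equivFin.symm k : Fin (r + q) → ℤ) with hc
    refine ⟨∑ i, |((Sh (Fin.append v w) c i : ℤ) : ℝ)|, fun t x ht hx htx => ?_⟩
    show ∑ j, (c (Fin.castAdd q j) : ℝ) * (∑ i, (v j i : ℝ) * x i - t) ≤ _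
    rw [kill_id v w c x t, hc1]
    have k1 : 0 ≤ ∑ l, (c (Fin.natAdd r l) : ℝ) * (∑ i, (w l i : ℝ) * x i - t) :=
      Finset.sum_nonneg fun l _ => mul_nonneg (by exact_mod_cast hcD l)
        (by have := hab l t x hx htx; linarith)
    have k2 : ∑ i, ((Sh (Fin.append v w) c i : ℤ) : ℝ) * x i ≤
        (∑ i, |((Sh (Fin.append v w) c i : ℤ) : ℝ)|) * ∑ i ∈ Bc (Fin.append v w) c, x i := by
      have k3 : ∑ i, ((Sh (Fin.append v w) c i : ℤ) : ℝ) * x i ≤
          ∑ i ∈ Bc (Fin.append v w) c, ((Sh (Fin.append v w) c i : ℤ) : ℝ) * x i := by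
        rw [← Finset.sum_add_sum_compl (Bc (Fin.append v w) c)]
        have k4 : ∑ i ∈ (Bc (Fin.append v w) c)ᶜ, ((Sh (Fin.append v w) c i : ℤ) : ℝ) * x i ≤ 0 :=
          Finset.sum_nonpos fun i hi => by
            have h10 : ¬ 0 < Sh (Fin.append v w) c i := by
              rw [Finset.mem_compl] at hi
              simpa [Bc, Sh] using hi
            exact mul_nonpos_of_nonpos_of_nonneg (by exact_mod_cast not_lt.1 h10) (hx i)
        linarith
      refine k3.trans ?_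
      rw [Finset.mul_sum]
      refine Finset.sum_le_sum fun i _ => mul_le_mul_of_nonneg_right ?_ (hx i)
      exact (le_abs_self _).trans (Finset.single_le_sum
        (f := fun i => |((Sh (Fin.append v w) c i : ℤ) : ℝ)|) (fun _ _ => abs_nonneg _)
        (Finset.mem_univ i))
    push_cast
    linarith
  · intro k
    have hk := ((S'.erase 0).equivFin.symm k).2
    set c : Fin (r + q) → ℤ := ((S'.erase 0).equivFin.symm k : Fin (r + q) → ℤ) with hc
    rw [Finset.mem_erase, hS'] at hk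
    obtain ⟨hc0, hcD, hcs, hca⟩ := hk
    have h4 : ∀ i, Sh (Fin.append v w) c i ≤ 0 := by
      by_contra h5
      apply hca
      unfold alf
      rw [if_neg h5]
    have h5 : ∃ i, Sh (Fin.append v w) c i < 0 := by
      by_contra h6
      push Not at h6
      have h7 : ∀ i, Sh (Fin.append v w) c i = 0 := fun i => le_antisymm (h4 i) (h6 i)
      have h8 := weight v w ρ h1 c
      rw [hcs] at h8
      simp only [h7, Int.cast_zero, mul_zero, Finset.sum_const_zero, zero_add] at h8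
      have h9 : ∀ l ∈ (Finset.univ : Finset (Fin q)), (c (Fin.natAdd r l) : ℝ) *
          (∑ i, ρ i * (w l i : ℝ) - 1) = 0 :=
        (Finset.sum_eq_zero_iff_of_nonneg (fun l _ => mul_nonneg (by exact_mod_cast hcD l)
          (by have := h2 l; linarith))).1 h8.symm
      refine hc0 (zero_of hv w c hcs (fun l => ?_) h7)
      have h10 := h9 l (Finset.mem_univ l)
      have h11 : ∑ i, ρ i * (w l i : ℝ) - 1 ≠ 0 := by have := h2 l; intro h; linarith
      have h12 := (mul_eq_zero.1 h10).resolve_right h11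
      exact_mod_cast h12
    obtain ⟨i₀, hi₀⟩ := h5
    refine ⟨1, one_pos, fun t ξ x ht hξ hx htx => ?_⟩
    show ∑ j, (c (Fin.castAdd q j) : ℝ) * (∑ i, (v j i : ℝ) * x i - t) ≤ _
    have hx0 : ∀ i, 0 ≤ x i := fun i => hξ.trans (hx i)
    rw [kill_id v w c x t, hcs]
    have k1 : 0 ≤ ∑ l, (c (Fin.natAdd r l) : ℝ) * (∑ i, (w l i : ℝ) * x i - t) :=
      Finset.sum_nonneg fun l _ => mul_nonneg (by exact_mod_cast hcD l)
        (by have := hab l t x hx0 htx; linarith)
    have k2 : ∑ i, ((Sh (Fin.append v w) c i : ℤ) : ℝ) * x i ≤ -ξ := by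
      rw [← Finset.add_sum_erase _ _ (Finset.mem_univ i₀)]
      have k3 : ∑ i ∈ Finset.univ.erase i₀, ((Sh (Fin.append v w) c i : ℤ) : ℝ) * x i ≤ 0 :=
        Finset.sum_nonpos fun i _ =>
          mul_nonpos_of_nonpos_of_nonneg (by exact_mod_cast h4 i) (hx0 i)
      have k4 : ((Sh (Fin.append v w) c i₀ : ℤ) : ℝ) ≤ -1 := by
        have : Sh (Fin.append v w) c i₀ ≤ -1 := by omega
        exact_mod_cast this
      have k5 : ((Sh (Fin.append v w) c i₀ : ℤ) : ℝ) * x i₀ ≤ -ξ := by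
        nlinarith [hx i₀, hx0 i₀]
      linarith
    push_cast
    linarith

theorem taskH2 : TaskH2 := by
  intro r N v a h p hv ha hh hab hb
  obtain ⟨ρ, hρ1, hρ2⟩ := hh
  obtain ⟨q, w, b, hb0, hw, he⟩ := sparse_append v a h
  rw [he] at hb
  refine main hv w (Fin.append a b) (fun j => ?_) ρ hρ1 (fun l => ?_) (fun l t x hx ht => ?_) p hb
  · refine Fin.addCases (fun j => ?_) (fun l => ?_) j
    · rw [Fin.append_left]; exact ha j
    · rw [Fin.append_right]; exact hb0 l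
  · obtain ⟨g, hg, hgw⟩ := hw l
    have := hρ2 g hg
    simpa only [hgw] using this
  · obtain ⟨g, hg, hgw⟩ := hw l
    have := above_le hab g hg t x hx ht
    simpa only [hgw] using this

end Pool.Agent.W342.SH
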